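import Pool.Agent.N582.ASPoly

/-!
# Arc-disjoint antistrong and strongly connected spanning subdigraphs: NP-hardness

The reduction is from 3SAT.

1. Let `D₀` be a digraph with `n` vertices and all in-degrees equal to two. Add a vertex `z`, the arcs
from all vertices to `z`, and two arcs from `z` to vertices `w₁`, `w₂`. The new digraph `D` has
`N = n + 1` vertices and `3 N - 1` arcs. The bipartite representation of an antistrong subdigraph is
connected, so that it has at least `2 N - 1` arcs, and the strongly connected subdigraph has at most
`N` arcs: it is a Hamiltonian cycle of `D`. If `z` comes after `u` and before `w` on this cycle, then
`u w` is an arc of `D₀`, since otherwise the vertex `u'` of the bipartite representation of the rest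
would lie in a component with at most four vertices. So `D₀` is Hamiltonian. Conversely, a
Hamiltonian cycle of `D₀` gives a decomposition of `D`.

2. A clause with three literals is represented by six vertices `e₀, e₁, e₂, t₀, t₁, t₂` with the arcs
`e_(i+1) e_i`, `e_i t_i`, `t_i t_(i+1)` (indices modulo three). A Hamiltonian cycle enters this
gadget at `e_i` if and only if it leaves it at `t_i`, and it enters it for at least one `i`. A variable
`x_j` is represented by a vertex `s_j` and two lists, which pass through the gadgets of the
occurrences of the literals `x_j` and `¬ x_j` and end at `s_(j+1)`. All in-degrees are equal to two,
and the digraph is Hamiltonian if and only if the formula is satisfiable.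
-/

set_option autoImplicit false

namespace Pool.Agent.Results.MP_c99d13_lc.NPHard

open Pool.Agent.NPC Pool.Agent.N582.AS

/-- It is NP-hard to decide whether a digraph, given by lists of its vertices and arcs, has two
arc-disjoint spanning subdigraphs, one of them antistrong and the other one strongly connected. -/
theorem result :
    NPHardP (fun I : List ℕ × List (ℕ × ℕ) => Decomposable (arcs I)) :=
  hardI_decomposable.toNPHardP

end Pool.Agent.Results.MP_c99d13_lc.NPHard
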